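import Pool.Agent.H19.KL.Stmts2

/-! # Project KL, module MU2: the hyperplane inequality for the integral form -/

set_option autoImplicit false

open MeasureTheory Set
open scoped ContDiff Pointwise

namespace Pool.Agent.H19.KL

open Pool.Agent.H84 Pool.Agent.H84.Sym Pool.Agent.H84.Sym.P2x Pool.Agent.H84.Sym.C29
open Pool.Agent.H73.Lp

private theorem orl_relax {p q : ℝ} {φ : ℝ → ℝ} (h : Orl p q φ) :
    Orl (min p 2) (max q 4) φ where
  zero := h.zero
  even := h.even
  c1 := h.c1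
  c2 := h.c2
  pos := h.pos
  lower := fun s hs => (mul_le_mul_of_nonneg_right
    (by linarith [min_le_left p 2]) (h.pos s hs).le).trans (h.lower s hs)
  upper := fun s hs => (h.upper s hs).trans (mul_le_mul_of_nonneg_right
    (by linarith [le_max_left q 4]) (h.pos s hs).le)

private theorem momC_nonneg (b : ℝ) : 0 ≤ momC b :=
  tsum_nonneg fun k => by positivity

private theorem CC_pos {p q : ℝ} (hp : 1 < p) (hq : 4 ≤ q) : 0 < CC p q := by
  unfold CC
  refine mul_pos (Real.sqrt_pos.2 ?_) (Real.sqrt_pos.2 ?_)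
  · unfold CB2
    refine mul_pos (Real.exp_pos _) (lt_max_of_lt_left ?_)
    unfold K1
    have h1 : 0 ≤ 100000 * (q / (p - 1)) :=
      mul_nonneg (by norm_num) (div_nonneg (by linarith) (by linarith))
    positivity
  · unfold CA
    have h1 := momC_nonneg (q - 2)
    have h2 : 0 < 1 / (p - 1) := one_div_pos.2 (by linarith)
    have h3 : 0 < q - 1 := by linarith
    have h4 : 0 < q := by linarith
    positivity

universe u

theorem mu2_thm (hB : ∀ n : ℕ, BPCStmt (EuclideanSpace ℝ (Fin (n + 1)))) : MU2Stmt.{u} := by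
  intro n α _ ν v φ p q hp hpq hv hφm hφ' hi hne
  set p' := min p 2 with hp'
  set q' := max q 4 with hq'
  have hφ : ∀ o, Orl p' q' (φ o) := fun o => orl_relax (hφ' o)
  have hp1 : 1 < p' := lt_min hp (by norm_num)
  have hp2 : p' ≤ 2 := min_le_right _ _
  have hq4 : 4 ≤ q' := le_max_right _ _
  have hpq' : p' ≤ q' := by linarith
  obtain ⟨hconv, hcont, h0, hev, -, -, -⟩ := Mod_basic hp1 hpq' hφ hi hne
  obtain ⟨R, hR⟩ := mod_bounded hp1 hpq' hφ hi hne
  have ho : IsOpen {x | Mod ν v φ x < 1} := isOpen_lt hcont continuous_const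
  have hc : Convex ℝ {x | Mod ν v φ x < 1} := by
    have := hconv.convex_lt 1
    simpa using this
  have hb : Bornology.IsBounded {x | Mod ν v φ x < 1} := Metric.isBounded_closedBall.subset hR
  have hn : {x | Mod ν v φ x < 1}.Nonempty := ⟨0, by simp [h0]⟩
  have hsy : ∀ x ∈ {x | Mod ν v φ x < 1}, -x ∈ {x | Mod ν v φ x < 1} := fun x hx => by
    have : Mod ν v φ x < 1 := hx
    show Mod ν v φ (-x) < 1
    rwa [hev x]
  refine ⟨⟨hn, ho, hb, hc, hsy⟩, ?_⟩
  refine hyper_of_pc ho hc hb hn hsy (CC_pos hp1 hq4) fun s hs hcov => ?_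
  refine sandwich_pc ho hc (by simp [h0]) hR (fun η hη hη1 => ?_) hs hcov
  obtain ⟨N, v', φ', hφ', hsp, hv0, h1, h2⟩ := Mod_sandwich hp1 hpq' hv hφm hφ hi hne hη hη1
  refine ⟨KK v' φ', (KK_isOpen hφ').measurableSet, ?_, ?_, fun s hs hcov => ?_⟩
  · rintro _ ⟨x, hx, rfl⟩
    exact h1 x hx
  · intro x hx
    rw [mem_smul_set_iff_inv_smul_mem₀ (by linarith : (1 + η) ≠ 0)]
    exact h2 x hx
  · exact hB n (Fin N) v' φ' p' q' inferInstance hφ' hp1 hp2 hq4 hsp hv0 s hs hcov

end Pool.Agent.H19.KL
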